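import Mathlib

namespace Pool.Agent.Results.MP_b1a016_al.Periodic

variable {G : Type*} [Group G] [TopologicalSpace G] [IsTopologicalGroup G] [CompactSpace G]
  [T2Space G] [TotallyDisconnectedSpace G] {p : ℕ}

theorem mem_cl {c y : G} : y ∈ (Subgroup.zpowers c).topologicalClosure ↔
    ∀ U : OpenNormalSubgroup G, ∃ m : ℤ, y⁻¹ * c ^ m ∈ U := by
  change y ∈ closure (Subgroup.zpowers c : Set G) ↔ _
  rw [mem_closure_iff]
  constructor
  · intro h U
    obtain ⟨_, hz, m, rfl⟩ := h ((y⁻¹ * ·) ⁻¹' U) (U.isOpen.preimage (by fun_prop))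
      (by simpa using U.one_mem)
    exact ⟨m, hz⟩
  · intro h W hW hy
    obtain ⟨U, hU⟩ := ProfiniteGrp.exist_openNormalSubgroup_sub_open_nhds_of_one
      (U := (y * ·) ⁻¹' W) (hW.preimage (by fun_prop)) (by simpa using hy)
    obtain ⟨m, hm⟩ := h U
    exact ⟨c ^ m, by simpa using hU hm, m, rfl⟩

theorem pow_mem_U (hp : ∀ U : OpenNormalSubgroup G, IsPGroup p (G ⧸ U.toSubgroup))
    (U : OpenNormalSubgroup G) (g : G) : ∃ k : ℕ, g ^ p ^ k ∈ U := by
  obtain ⟨k, hk⟩ := hp U (QuotientGroup.mk g)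
  exact ⟨k, (QuotientGroup.eq_one_iff _).1 hk⟩

theorem key (hpp : p.Prime) (hp : ∀ U : OpenNormalSubgroup G, IsPGroup p (G ⧸ U.toSubgroup))
    {x c : G} (hc : c ∈ (Subgroup.zpowers x).topologicalClosure) (h1 : c ≠ 1) :
    ∃ k : ℕ, x ^ p ^ k ∈ (Subgroup.zpowers c).topologicalClosure := by
  obtain ⟨N, hN⟩ := ProfiniteGrp.exist_openNormalSubgroup_sub_open_nhds_of_one
    (U := ({c}ᶜ : Set G)) isOpen_compl_singleton (by simpa using h1.symm)
  obtain ⟨k, hk⟩ := pow_mem_U hp N x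
  refine ⟨k, mem_cl.2 fun U => ?_⟩
  obtain ⟨m, hm⟩ := mem_cl.1 hc (U ⊓ N)
  obtain ⟨j, hj⟩ := pow_mem_U hp U x
  have hmU : c⁻¹ * x ^ m ∈ U := hm.1
  have hmN : c⁻¹ * x ^ m ∈ N := hm.2
  have hnd : ¬ ((p ^ k : ℕ) : ℤ) ∣ m := by
    rintro ⟨t, rfl⟩
    have h2 : x ^ (((p ^ k : ℕ) : ℤ) * t) ∈ N.toSubgroup := by
      rw [zpow_mul, zpow_natCast]; exact N.toSubgroup.zpow_mem hk t
    have h3 := N.toSubgroup.mul_mem h2 (N.toSubgroup.inv_mem hmN)
    exact hN h3 (by simp)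
  obtain ⟨i, -, hi⟩ := (Nat.dvd_prime_pow hpp).1
    (Int.natCast_dvd_natCast.1 (Int.gcd_dvd_right m ((p ^ j : ℕ) : ℤ)))
  have hik : i ≤ k := by
    by_contra h
    refine hnd (dvd_trans ?_ (Int.gcd_dvd_left m ((p ^ j : ℕ) : ℤ)))
    rw [hi]; exact Int.natCast_dvd_natCast.2 (pow_dvd_pow _ (by omega))
  have hb := Int.gcd_eq_gcd_ab m ((p ^ j : ℕ) : ℤ)
  rw [hi] at hb
  obtain ⟨d, rfl⟩ := Nat.exists_eq_add_of_le hik
  refine ⟨m.gcdA ((p ^ j : ℕ) : ℤ) * (p ^ d : ℕ), QuotientGroup.eq.1 ?_⟩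
  have e1 : (QuotientGroup.mk c : G ⧸ U.toSubgroup) = QuotientGroup.mk x ^ m :=
    QuotientGroup.eq.2 hmU
  have e2 : (QuotientGroup.mk x : G ⧸ U.toSubgroup) ^ ((p ^ j : ℕ) : ℤ) = 1 := by
    rw [zpow_natCast]; exact (QuotientGroup.eq_one_iff _).2 hj
  rw [QuotientGroup.mk_pow, QuotientGroup.mk_zpow, e1, pow_add, pow_mul, ← zpow_natCast _ (p ^ i), hb,
    zpow_add, zpow_mul _ ((p ^ j : ℕ) : ℤ), e2, one_zpow, mul_one, zpow_mul, zpow_mul, zpow_natCast]

omit [CompactSpace G] [TotallyDisconnectedSpace G] in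
theorem comm_cl {x y c : G} (h : Commute y x) (hc : c ∈ (Subgroup.zpowers x).topologicalClosure) :
    Commute y c := by
  have : (Subgroup.zpowers x).topologicalClosure ≤ Subgroup.centralizer {y} :=
    Subgroup.topologicalClosure_minimal _ (by
      rw [Subgroup.zpowers_le, Subgroup.mem_centralizer_singleton_iff]; exact h.symm.eq)
      (Set.isClosed_centralizer _)
  exact (Subgroup.mem_centralizer_singleton_iff.1 (this hc)).symm

omit [CompactSpace G] [TotallyDisconnectedSpace G] in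
theorem fin_cl {x c : G} (h : IsOfFinOrder x) (hc : c ∈ (Subgroup.zpowers x).topologicalClosure) :
    IsOfFinOrder c := by
  obtain ⟨m, rfl⟩ := Subgroup.topologicalClosure_minimal _ le_rfl (finite_zpowers.2 h).isClosed hc
  exact h.zpow

theorem result (p : ℕ) (hpp : p.Prime) (G : Type*) [Group G] [TopologicalSpace G]
    [IsTopologicalGroup G] [CompactSpace G] [T2Space G] [TotallyDisconnectedSpace G]
    (hp : ∀ U : OpenNormalSubgroup G, IsPGroup p (G ⧸ U.toSubgroup))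
    (hS : (sSup {L : Subgroup G | IsClosed (L : Set G) ∧ ¬ L.Normal}).topologicalClosure ≠ ⊤)
    (hna : ∃ a b : G, a * b ≠ b * a) : ∀ g : G, IsOfFinOrder g := by
  set S := (sSup {L : Subgroup G | IsClosed (L : Set G) ∧ ¬ L.Normal}).topologicalClosure
  have hcl : IsClosed (S : Set G) := Subgroup.isClosed_topologicalClosure _
  have hnorm : ∀ x, x ∉ S → (Subgroup.zpowers x).topologicalClosure.Normal := by
    intro x hx
    by_contra h
    exact hx (Subgroup.le_topologicalClosure _ (le_sSup (s := {L : Subgroup G | IsClosed (L : Set G) ∧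
      ¬ L.Normal}) ⟨Subgroup.isClosed_topologicalClosure _, h⟩
      (Subgroup.le_topologicalClosure _ (Subgroup.mem_zpowers x))))
  have self : ∀ x : G, x ∈ (Subgroup.zpowers x).topologicalClosure := fun x =>
    Subgroup.le_topologicalClosure _ (Subgroup.mem_zpowers x)
  obtain ⟨o, ho⟩ : ∃ o, o ∉ S := by
    by_contra h; push Not at h; exact hS (eq_top_iff.2 fun x _ => h x)
  have gen : ∀ x : G, (∀ y, y ∉ S → Commute x y) → ∀ y, Commute x y := by
    intro x h y
    by_cases hy : y ∈ S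
    · have h1 : o * y ∉ S := fun h' => ho (by simpa using S.mul_mem h' (S.inv_mem hy))
      simpa using (h o ho).inv_right.mul_right (h _ h1)
    · exact h y hy
  have hpos : ∀ k, p ^ k ≠ 0 := fun k => pow_ne_zero _ hpp.ne_zero
  have cent : ∀ x, x ∉ S → ¬ IsOfFinOrder x → ∀ y, Commute x y := by
    intro x hx hinf
    refine gen x fun y hy => ?_
    have c1 : x * y * x⁻¹ * y⁻¹ ∈ (Subgroup.zpowers x).topologicalClosure := by
      have := Subgroup.mul_mem _ (self x) ((hnorm x hx).conj_mem _ (Subgroup.inv_mem _ (self x)) y)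
      simpa [mul_assoc] using this
    have c2 : x * y * x⁻¹ * y⁻¹ ∈ (Subgroup.zpowers y).topologicalClosure :=
      Subgroup.mul_mem _ ((hnorm y hy).conj_mem _ (self y) x) (Subgroup.inv_mem _ (self y))
    by_contra hne
    have hc1 : x * y * x⁻¹ * y⁻¹ ≠ 1 := fun h => hne (commutatorElement_eq_one_iff_commute.1 h)
    obtain ⟨k, hk⟩ := key hpp hp c1 hc1
    have hxc := comm_cl (Commute.refl x) c1
    have hyk := comm_cl (comm_cl (Commute.refl y) c2) hk
    generalize hc : x * y * x⁻¹ * y⁻¹ = c at *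
    have e : y * x * y⁻¹ = c⁻¹ * x := by rw [← hc]; group
    have e2 : (c⁻¹ * x) ^ p ^ k = x ^ p ^ k := by
      rw [← e, conj_pow, hyk.eq]; group
    rw [hxc.symm.inv_left.mul_pow, mul_eq_right, inv_pow, inv_eq_one] at e2
    exact hinf ((fin_cl (isOfFinOrder_iff_pow_eq_one.2 ⟨_, Nat.pos_of_ne_zero (hpos k), e2⟩) hk).of_pow
      (hpos k))
  obtain ⟨x, hx, y, hxy⟩ : ∃ x, x ∉ S ∧ ∃ y, ¬ Commute x y := by
    by_contra h; push Not at h
    obtain ⟨a, b, hab⟩ := hna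
    exact hab (gen a (fun y hy => (h y hy a).symm) b)
  have hxf : IsOfFinOrder x := by by_contra h; exact hxy (cent x hx h y)
  intro g
  obtain ⟨U, hU⟩ := ProfiniteGrp.exist_openNormalSubgroup_sub_open_nhds_of_one
    (U := (x * ·) ⁻¹' ((S : Set G)ᶜ ∩ {z | z * y ≠ y * z}))
    ((hcl.isOpen_compl.inter (isOpen_ne_fun (by fun_prop) (by fun_prop))).preimage (by fun_prop))
    (by simpa using ⟨hx, hxy⟩)
  obtain ⟨k, hk⟩ := pow_mem_U hp U g
  obtain ⟨h1, h2⟩ := hU hk
  have hf : IsOfFinOrder (x * g ^ p ^ k) := by by_contra h; exact h2 (cent _ h1 h y)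
  obtain ⟨n, hn, hn'⟩ := isOfFinOrder_iff_pow_eq_one.1 hf
  have := hnorm x hx
  have e : (g ^ p ^ k) ^ n ∈ (Subgroup.zpowers x).topologicalClosure := by
    rw [← QuotientGroup.eq_one_iff, QuotientGroup.mk_pow]
    have := congrArg (QuotientGroup.mk (s := (Subgroup.zpowers x).topologicalClosure)) hn'
    rwa [QuotientGroup.mk_pow, QuotientGroup.mk_mul, (QuotientGroup.eq_one_iff x).2 (self x),
      one_mul] at this
  exact ((fin_cl hxf e).of_pow hn.ne').of_pow (hpos k)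

end Pool.Agent.Results.MP_b1a016_al.Periodic
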